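import Pool.Agent.Y104.WL.Stm
import Pool.Agent.H914R2.KCorr

/-!
# Project WL: double orthogonality (job WL-DOR)
-/

open CategoryTheory AlgebraicGeometry

universe u v w

namespace Pool.Agent.Y438.WL

open Pool.Agent.H914 Pool.Agent.H914.VarClass Pool.Agent.H914.VarClass.Obj
  Pool.Agent.H914.WeilCohomology Pool.Agent.H281R3.HT Pool.Agent.TH125.Gal
  Pool.Agent.Y104.Geo Pool.Agent.Y104.WL

theorem dor : S_DOR.{u, v} := by
  intro k _ 𝒱 ops W Y δ h
  by_contra hδ
  obtain ⟨φ, hφ1, hφ2⟩ := Submodule.exists_le_ker_of_notMem hδ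
  obtain ⟨Φ, hΦ⟩ : ∃ Φ : W.H Y →ₗ[W.K] Module.Dual W.K (W.H Y),
      ∀ u a, Φ u a = W.tr Y (a * u) :=
    ⟨(LinearMap.mul W.K (W.H Y)).flip.compr₂ (W.tr Y), fun u a => rfl⟩
  have hinj : Function.Injective Φ := by
    rw [injective_iff_map_eq_zero]
    intro u hu
    refine nondeg_right fun b => ?_
    rw [← hΦ, hu, LinearMap.zero_apply]
  have hsurj : Function.Surjective Φ :=
    (LinearMap.injective_iff_surjective_of_finrank_eq_finrank
      (Subspace.dual_finrank_eq (K := W.K) (V := W.H Y)).symm).1 hinj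
  obtain ⟨u, hu⟩ := hsurj φ
  have h1 : ∀ a, φ a = W.tr Y (a * u) := fun a => by rw [← hu, hΦ]
  apply hφ1
  rw [h1]
  exact h u fun a ha => by rw [← h1]; exact hφ2 ha

end Pool.Agent.Y438.WL
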